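import Pool.Agent.AsympTrans.Final

/-!
# The greedy family, with a bound for the number of uncovered cells with a given symbol
-/

set_option autoImplicit false

namespace Pool.Agent.V3R

open Finset Pool.Agent.AsympTrans

/-- Greedy: if the step is possible for all `D > D₀` then there are `m - D₀` disjoint
transversals. -/
theorem greedy {m n : ℕ} {S : Type*} [DecidableEq S] (A : Fin m → Fin n → S)
    (hA : ∀ i, Function.Injective (A i)) (D₀ : ℕ)
    (hstep : ∀ (F : Finset (Fin m × Fin n)) (D : ℕ), D₀ < D →
      (∀ j, (F.filter (fun e => e.2 = j)).card = D) →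
      (∀ q, (F.filter (fun e => A e.1 e.2 = q)).card ≤ D) →
      ∃ t : Fin n → Fin m, Function.Injective t ∧ Function.Injective (fun j => A (t j) j) ∧
        (∀ j, (t j, j) ∈ F) ∧
        ∀ q, (F.filter (fun e => A e.1 e.2 = q)).card = D → ∃ j, A (t j) j = q) :
    ∃ T : Fin (m - D₀) → Fin n → Fin m, (∀ s, Function.Injective (T s)) ∧
      (∀ s, Function.Injective (fun j => A (T s j) j)) ∧
      (∀ j, Function.Injective (fun s => T s j)) ∧
      ∀ q, ((Finset.univ.filter (fun e : Fin m × Fin n => ∀ s, T s e.2 ≠ e.1)).filter
        (fun e => A e.1 e.2 = q)).card ≤ m - (m - D₀) := by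
  classical
  suffices h : ∀ N : ℕ, N ≤ m - D₀ → ∃ T : Fin N → Fin n → Fin m,
      (∀ s, Function.Injective (T s)) ∧ (∀ s, Function.Injective (fun j => A (T s j) j)) ∧
      (∀ j, Function.Injective (fun s => T s j)) ∧
      ∀ q, ((Finset.univ.filter (fun e : Fin m × Fin n => ∀ s, T s e.2 ≠ e.1)).filter
        (fun e => A e.1 e.2 = q)).card ≤ m - N by
    exact h (m - D₀) le_rfl
  intro N
  induction N with
  | zero =>
    intro _
    refine ⟨fun s => s.elim0, fun s => s.elim0, fun s => s.elim0, fun j s => s.elim0, ?_⟩
    intro q
    rw [Nat.sub_zero]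
    calc _ ≤ (Finset.univ : Finset (Fin m)).card := by
          refine Finset.card_le_card_of_injOn Prod.fst (fun _ _ => Finset.mem_univ _) ?_
          intro e he f hf h
          have h1 := (Finset.mem_filter.mp he).2
          have h2 := (Finset.mem_filter.mp hf).2
          have h3 : A e.1 e.2 = A f.1 f.2 := h1.trans h2.symm
          rw [← h] at h3
          exact Prod.ext h (hA _ h3)
      _ = m := by rw [Finset.card_univ, Fintype.card_fin]
  | succ N ih =>
    intro hN
    obtain ⟨T, h1, h2, h3, h4⟩ := ih (by omega)
    set F := Finset.univ.filter (fun e : Fin m × Fin n => ∀ s, T s e.2 ≠ e.1) with hF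
    have hcol : ∀ j, (F.filter (fun e => e.2 = j)).card = m - N := by
      intro j
      have h5 : F.filter (fun e => e.2 = j) =
          (((Finset.univ : Finset (Fin N)).image (fun s => T s j))ᶜ).image
            (fun i : Fin m => (i, j)) := by
        ext ⟨i, j'⟩
        simp only [hF, Finset.mem_filter, Finset.mem_univ, true_and, Finset.mem_image,
          Finset.mem_compl, not_exists, Prod.mk.injEq]
        constructor
        · rintro ⟨h, rfl⟩
          exact ⟨i, h, rfl, rfl⟩
        · rintro ⟨i', h, rfl, rfl⟩
          exact ⟨h, rfl⟩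
      rw [h5, Finset.card_image_of_injective _ (fun i i' h => congrArg Prod.fst h),
        Finset.card_compl, Finset.card_image_of_injective _ (h3 j), Finset.card_univ,
        Fintype.card_fin, Fintype.card_fin]
    obtain ⟨t, t1, t2, t3, t4⟩ := hstep F (m - N) (by omega) hcol h4
    have ht : ∀ j s, T s j ≠ t j := by
      intro j s
      have h5 := t3 j
      rw [hF, Finset.mem_filter] at h5
      exact h5.2 s
    refine ⟨Fin.cons t T, ?_, ?_, ?_, ?_⟩
    · intro s
      refine Fin.cases ?_ (fun s => ?_) s
      · exact t1
      · exact h1 s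
    · intro s
      refine Fin.cases ?_ (fun s => ?_) s
      · exact t2
      · exact h2 s
    · intro j s s'
      refine Fin.cases ?_ (fun s => ?_) s <;> refine Fin.cases ?_ (fun s' => ?_) s'
      · intro _
        rfl
      · intro h
        exact absurd h.symm (ht j s')
      · intro h
        exact absurd h (ht j s)
      · intro h
        have h5 : T s j = T s' j := h
        rw [h3 j h5]
    · intro q
      have h5 : (Finset.univ.filter (fun e : Fin m × Fin n =>
          ∀ s, (Fin.cons t T : Fin (N + 1) → Fin n → Fin m) s e.2 ≠ e.1)) =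
          F.filter (fun e => t e.2 ≠ e.1) := by
        ext e
        simp only [hF, Finset.mem_filter, Finset.mem_univ, true_and]
        constructor
        · intro h
          exact ⟨fun s => h s.succ, h 0⟩
        · rintro ⟨h, h'⟩ s
          refine Fin.cases ?_ (fun s => ?_) s
          · exact h'
          · exact h s
      rw [h5]
      have h6 : ((F.filter (fun e => t e.2 ≠ e.1)).filter (fun e => A e.1 e.2 = q)) ⊆
          F.filter (fun e => A e.1 e.2 = q) := by
        intro e he
        rw [Finset.mem_filter, Finset.mem_filter] at he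
        exact Finset.mem_filter.mpr ⟨he.1.1, he.2⟩
      rcases Nat.lt_or_ge ((F.filter (fun e => A e.1 e.2 = q)).card) (m - N) with h7 | h7
      · have h8 := Finset.card_le_card h6
        omega
      · obtain ⟨j, hj⟩ := t4 q (le_antisymm (h4 q) h7)
        have h8 : ((F.filter (fun e => t e.2 ≠ e.1)).filter (fun e => A e.1 e.2 = q)) ⊆
            (F.filter (fun e => A e.1 e.2 = q)).erase (t j, j) := by
          intro e he
          rw [Finset.mem_erase]
          refine ⟨?_, h6 he⟩
          rintro rfl
          rw [Finset.mem_filter, Finset.mem_filter] at he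
          exact he.1.2 rfl
        have h9 := Finset.card_le_card h8
        rw [Finset.card_erase_of_mem (Finset.mem_filter.mpr ⟨t3 j, hj⟩)] at h9
        have h10 := h4 q
        omega

/-- The family of `UniformBound`, with a bound for the uncovered cells. -/
theorem final {m n : ℕ} (hn : 1 ≤ n) {S : Type*} [DecidableEq S] (A : Fin m → Fin n → S)
    (hA : ∀ i, Function.Injective (A i)) :
    ∃ T : Fin (m - min (n * (n - 1)) (131072 * n * (Nat.log 2 n + 1) ^ 2)) → Fin n → Fin m,
      (∀ s, Function.Injective (T s)) ∧
      (∀ s, Function.Injective (fun j => A (T s j) j)) ∧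
      (∀ j, Function.Injective (fun s => T s j)) ∧
      ∀ q, ((Finset.univ.filter (fun e : Fin m × Fin n => ∀ s, T s e.2 ≠ e.1)).filter
        (fun e => A e.1 e.2 = q)).card ≤
          m - (m - min (n * (n - 1)) (131072 * n * (Nat.log 2 n + 1) ^ 2)) := by
  refine greedy A hA _ ?_
  intro F D hD hcol hsym
  rcases Nat.lt_or_ge (n * (n - 1)) D with h | h
  · exact step_large A hA F D h hcol hsym
  · rcases min_lt_iff.1 hD with h' | h'
    · exact absurd h' (not_lt.2 h)
    · refine step_small hn A hA F D h'.le (h.trans ?_) hcol hsym
      rw [sq]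
      exact Nat.mul_le_mul_left _ (Nat.sub_le _ _)

end Pool.Agent.V3R
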