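import Pool.Agent.V3R.Core
import Pool.Agent.V3R.Start

/-!
# The initial state

The rows outside `M` keep their names (`Sum.inl`), every cell of a row in `M` gets a private row
(`Sum.inr`).
-/

set_option autoImplicit false

namespace Pool.Agent.V3R

open Finset Pool.Agent.Rl45

/-- the rows of the new array -/
abbrev Rw (m n : ℕ) : Type := Fin m ⊕ (Fin m × Fin n)

/-- the new array -/
def ext {m n k : ℕ} (A : Fin m → Fin n → Fin k) : Rw m n → Fin n → Fin k :=
  Sum.elim A fun p => A p.1

open Classical in
/-- the cells of the new array -/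
noncomputable def cel {m n : ℕ} (M : Finset (Fin m)) : Finset (Rw m n × Fin n) :=
  (univ.filter fun e : Rw m n × Fin n => match e.1 with
    | Sum.inl i => i ∉ M
    | Sum.inr p => p.1 ∈ M ∧ p.2 = e.2)

theorem mem_cel_inl {m n : ℕ} {M : Finset (Fin m)} {i : Fin m} {v : Fin n} :
    ((Sum.inl i, v) : Rw m n × Fin n) ∈ cel M ↔ i ∉ M := by
  classical
  unfold cel
  rw [mem_filter]
  simp

theorem mem_cel_inr {m n : ℕ} {M : Finset (Fin m)} {p : Fin m × Fin n} {v : Fin n} :
    ((Sum.inr p, v) : Rw m n × Fin n) ∈ cel M ↔ p.1 ∈ M ∧ p.2 = v := by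
  classical
  unfold cel
  rw [mem_filter]
  simp

/-- the row is not private -/
def Old {m n : ℕ} (r : Rw m n) : Prop := ∃ i, r = Sum.inl i

theorem private_cel {m n : ℕ} {M : Finset (Fin m)} (e : Rw m n × Fin n) (he : e ∈ cel M)
    (e' : Rw m n × Fin n) (he' : e' ∈ cel M) (h : e.1 = e'.1) (hP : ¬ Old e.1) : e = e' := by
  obtain ⟨r, v⟩ := e
  obtain ⟨r', v'⟩ := e'
  simp only at h
  subst h
  rcases r with i | p
  · exact absurd ⟨i, rfl⟩ hP
  · rw [mem_cel_inr] at he he'
    rw [← he.2, ← he'.2]

theorem ext_injective {m n k : ℕ} {A : Fin m → Fin n → Fin k} (hA : ∀ i, Function.Injective (A i))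
    (r : Rw m n) : Function.Injective (ext A r) := by
  rcases r with i | p
  · exact hA i
  · exact hA p.1

/-- the bound of `UniformBound` -/
def D0 (n : ℕ) : ℕ := min (n * (n - 1)) (131072 * n * (Nat.log 2 n + 1) ^ 2)

theorem col_count {m n N : ℕ} (T : Fin N → Fin n → Fin m)
    (h3 : ∀ j, Function.Injective (fun s => T s j)) (v : Fin n) :
    (((Finset.univ.filter (fun e : Fin m × Fin n => ∀ s, T s e.2 ≠ e.1))).filter
      (fun e => e.2 = v)).card = m - N := by
  have h5 : (Finset.univ.filter (fun e : Fin m × Fin n => ∀ s, T s e.2 ≠ e.1)).filter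
      (fun e => e.2 = v) =
      (((Finset.univ : Finset (Fin N)).image (fun s => T s v))ᶜ).image
        (fun i : Fin m => (i, v)) := by
    ext ⟨i, v'⟩
    rw [Finset.mem_filter, Finset.mem_filter, Finset.mem_image]
    constructor
    · rintro ⟨⟨-, h⟩, h'⟩
      have h'' : v' = v := h'
      subst h''
      refine ⟨i, ?_, rfl⟩
      rw [Finset.mem_compl, Finset.mem_image]
      rintro ⟨s, -, hs⟩
      exact h s hs
    · rintro ⟨i', h, h'⟩
      have h6 := Prod.mk.inj h'
      rw [← h6.1, ← h6.2]
      rw [Finset.mem_compl, Finset.mem_image] at h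
      exact ⟨⟨Finset.mem_univ _, fun s hs => h ⟨s, Finset.mem_univ _, hs⟩⟩, rfl⟩
  rw [h5, Finset.card_image_of_injective _ (fun i i' h => congrArg Prod.fst h),
    Finset.card_compl, Finset.card_image_of_injective _ (h3 v), Finset.card_univ,
    Fintype.card_fin, Fintype.card_fin]

theorem final_D0 {m n : ℕ} (hn : 1 ≤ n) {S : Type*} [DecidableEq S] (A : Fin m → Fin n → S)
    (hA : ∀ i, Function.Injective (A i)) :
    ∃ (N : ℕ) (T : Fin N → Fin n → Fin m), N = m - D0 n ∧
      (∀ s, Function.Injective (T s)) ∧
      (∀ s, Function.Injective (fun j => A (T s j) j)) ∧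
      (∀ j, Function.Injective (fun s => T s j)) ∧
      (∀ v, (((Finset.univ.filter (fun e : Fin m × Fin n => ∀ s, T s e.2 ≠ e.1))).filter
        (fun e => e.2 = v)).card = m - N) ∧
      ∀ q, ((Finset.univ.filter (fun e : Fin m × Fin n => ∀ s, T s e.2 ≠ e.1)).filter
        (fun e => A e.1 e.2 = q)).card ≤ m - N := by
  obtain ⟨T, h1, h2, h3, h4⟩ := final hn A hA
  exact ⟨m - D0 n, T, rfl, h1, h2, h3, col_count T h3, h4⟩

/-- The initial state. -/
theorem exists_init {m n k : ℕ} (hn : 1 ≤ n) (A : Fin m → Fin n → Fin k)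
    (hA : ∀ i, Function.Injective (A i)) (M : Finset (Fin m)) (hM : n * D0 n < M.card) :
    ∃ (N d : ℕ) (T : Fin N → Fin n → Rw m n) (H : Finset (Rw m n × Fin n)),
      N + d = m ∧ d ≤ D0 n ∧ St (ext A) T H d (cel M) ∧ nonfree H < pcount Old T := by
  classical
  set L := Mᶜ with hL
  obtain ⟨e⟩ : Nonempty (Fin L.card ≃ L) :=
    ⟨(Fintype.equivFinOfCardEq (Fintype.card_coe L)).symm⟩
  obtain ⟨g⟩ : Nonempty (Fin M.card ≃ M) :=
    ⟨(Fintype.equivFinOfCardEq (Fintype.card_coe M)).symm⟩
  obtain ⟨N₁, T₁, hN₁, h1, h2, h3, hFcol, h4⟩ :=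
    final_D0 hn (fun i => A (e i)) (fun i => hA (e i))
  have hML : M.card + L.card = m := by
    rw [hL, card_add_card_compl, Fintype.card_fin]
  have heL : ∀ i, (e i : Fin m) ∉ M := by
    intro i h
    exact (mem_compl.1 (e i).2) h
  let T₂ : Fin N₁ → Fin n → Rw m n := fun s v => Sum.inl (e (T₁ s v))
  let T₃ : Fin M.card → Fin n → Rw m n := fun s v => Sum.inr ((g s : Fin m), v)
  let T : Fin (N₁ + M.card) → Fin n → Rw m n := Fin.append T₂ T₃
  let φ : Fin L.card × Fin n → Rw m n × Fin n := fun c => (Sum.inl (e c.1 : Fin m), c.2)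
  have hφ : Function.Injective φ := by
    intro c c' h
    have h5 := Prod.mk.inj h
    exact Prod.ext (e.injective (Subtype.ext (Sum.inl_injective h5.1))) h5.2
  set F : Finset (Fin L.card × Fin n) := univ.filter (fun c => ∀ s, T₁ s c.2 ≠ c.1) with hF
  set H := F.image φ with hH
  have hTl : ∀ s, T (Fin.castAdd M.card s) = T₂ s := fun s => Fin.append_left T₂ T₃ s
  have hTr : ∀ s, T (Fin.natAdd N₁ s) = T₃ s := fun s => Fin.append_right T₂ T₃ s
  have hst : St (ext A) T H (L.card - N₁) (cel M) := by
    refine ⟨?_, ?_, ?_, ?_, ?_, ?_, ?_⟩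
    · intro s
      refine Fin.addCases (fun s => ?_) (fun s => ?_) s
      · rw [hTl]
        intro v v' h
        exact h1 s (e.injective (Subtype.ext (Sum.inl_injective h)))
      · rw [hTr]
        intro v v' h
        exact (Prod.mk.inj (Sum.inr_injective h)).2
    · intro s
      refine Fin.addCases (fun s => ?_) (fun s => ?_) s
      · rw [hTl]
        intro v v' h
        exact h2 s h
      · rw [hTr]
        intro v v' h
        exact hA (g s) h
    · intro v s s'
      refine Fin.addCases (fun s => ?_) (fun s => ?_) s <;>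
        refine Fin.addCases (fun s' => ?_) (fun s' => ?_) s'
      · rw [hTl, hTl]
        intro h
        rw [h3 v (e.injective (Subtype.ext (Sum.inl_injective h)))]
      · rw [hTl, hTr]
        intro h
        exact absurd h Sum.inl_ne_inr
      · rw [hTl, hTr]
        intro h
        exact absurd h Sum.inr_ne_inl
      · rw [hTr, hTr]
        intro h
        rw [g.injective (Subtype.ext (Prod.mk.inj (Sum.inr_injective h)).1)]
    · rintro ⟨r, v⟩
      rcases r with i | p
      · rw [mem_cel_inl]
        constructor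
        · intro h
          have hi : i ∈ L := mem_compl.2 h
          have h5 : (e (e.symm ⟨i, hi⟩) : Fin m) = i := by rw [Equiv.apply_symm_apply]
          by_cases h6 : ∀ s, T₁ s v ≠ e.symm ⟨i, hi⟩
          · left
            rw [hH, mem_image]
            refine ⟨(e.symm ⟨i, hi⟩, v), mem_filter.2 ⟨mem_univ _, h6⟩, ?_⟩
            simp only [φ, h5]
          · right
            push Not at h6
            obtain ⟨s, hs⟩ := h6
            refine ⟨Fin.castAdd M.card s, ?_⟩
            rw [hTl]
            change Sum.inl (e (T₁ s v) : Fin m) = _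
            rw [hs, h5]
        · rintro (h | ⟨s, h⟩)
          · rw [hH, mem_image] at h
            obtain ⟨c, -, h5⟩ := h
            rw [← Sum.inl_injective (Prod.mk.inj h5).1]
            exact heL _
          · revert h
            refine Fin.addCases (fun s => ?_) (fun s => ?_) s
            · rw [hTl]
              intro h
              rw [← Sum.inl_injective h]
              exact heL _
            · rw [hTr]
              intro h
              exact absurd h Sum.inr_ne_inl
      · rw [mem_cel_inr]
        constructor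
        · rintro ⟨h, h5⟩
          right
          refine ⟨Fin.natAdd N₁ (g.symm ⟨p.1, h⟩), ?_⟩
          rw [hTr]
          change Sum.inr ((g (g.symm ⟨p.1, h⟩) : Fin m), v) = _
          rw [Equiv.apply_symm_apply, ← h5]
        · rintro (h | ⟨s, h⟩)
          · rw [hH, mem_image] at h
            obtain ⟨c, -, h5⟩ := h
            exact absurd (Prod.mk.inj h5).1 Sum.inl_ne_inr
          · revert h
            refine Fin.addCases (fun s => ?_) (fun s => ?_) s
            · rw [hTl]
              intro h
              exact absurd h Sum.inl_ne_inr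
            · rw [hTr]
              intro h
              have h5 := Sum.inr_injective h
              rw [← h5]
              exact ⟨(g s).2, rfl⟩
    · intro s v
      refine Fin.addCases (fun s => ?_) (fun s => ?_) s
      · rw [hTl, hH, mem_image]
        rintro ⟨c, hc, h5⟩
        have h6 := Prod.mk.inj h5
        have h7 := e.injective (Subtype.ext (Sum.inl_injective h6.1))
        rw [hF, mem_filter] at hc
        apply hc.2 s
        rw [h6.2, h7]
      · rw [hTr, hH, mem_image]
        rintro ⟨c, -, h5⟩
        exact absurd (Prod.mk.inj h5).1 Sum.inl_ne_inr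
    · intro v
      rw [← hFcol v, ← card_image_of_injective (F.filter fun c => c.2 = v) hφ]
      congr 1
      ext c
      rw [mem_filter, hH, mem_image, mem_image]
      constructor
      · rintro ⟨⟨c', h5, rfl⟩, h6⟩
        exact ⟨c', mem_filter.2 ⟨h5, h6⟩, rfl⟩
      · rintro ⟨c', h5, rfl⟩
        rw [mem_filter] at h5
        exact ⟨⟨c', h5.1, rfl⟩, h5.2⟩
    · intro y
      refine le_trans (le_of_eq ?_) (h4 y)
      rw [← card_image_of_injective _ hφ]
      congr 1
      ext c
      rw [mem_filter, hH, mem_image, mem_image]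
      constructor
      · rintro ⟨⟨c', h5, rfl⟩, h6⟩
        exact ⟨c', mem_filter.2 ⟨h5, h6⟩, rfl⟩
      · rintro ⟨c', h5, rfl⟩
        rw [mem_filter] at h5
        exact ⟨⟨c', h5.1, rfl⟩, h5.2⟩
  refine ⟨N₁ + M.card, L.card - N₁, T, H, by omega, by omega, hst, ?_⟩
  have h5 : nonfree H ≤ n * D0 n := by
    unfold nonfree
    refine (card_le_card sdiff_subset).trans ?_
    rw [hst.card_H, Fintype.card_fin]
    exact Nat.mul_le_mul_left _ (by omega)
  have h6 : M.card ≤ pcount Old T := by
    unfold pcount
    have h7 : ((Finset.univ : Finset (Fin M.card))).card ≤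
        (Finset.univ.filter fun i : Fin (N₁ + M.card) => ∀ v, ¬ Old (T i v)).card := by
      refine card_le_card_of_injOn (Fin.natAdd N₁) ?_ ?_
      · intro s _
        rw [mem_coe, mem_filter]
        refine ⟨mem_univ _, fun v => ?_⟩
        rw [hTr]
        rintro ⟨i, h⟩
        exact absurd h Sum.inr_ne_inl
      · intro s _ s' _ h
        exact Fin.natAdd_injective _ _ h
    rw [card_univ, Fintype.card_fin] at h7
    refine h7.trans (le_of_eq ?_)
    congr
  omega

end Pool.Agent.V3R
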