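import Pool.Agent.V3R.Main
import Pool.Agent.APL86.Rows

/-!
# The number of rows
-/

set_option autoImplicit false

namespace Pool.Agent.V3R

open Finset

/-- Disjoint transversals for `m > 32 n k (log n + 7) + n D0(n)`. -/
theorem of_card {m n k : ℕ} (hn : 1 ≤ n)
    (hm : 32 * (n * k) * (Nat.log 2 n + 7) + n * D0 n < m) (A : Fin m → Fin n → Fin k)
    (hA : ∀ i, Function.Injective (A i)) :
    ∃ T : Fin (m - (n - 1 + (min n (k - n) - 1))) → Fin n → Fin m,
      (∀ s, Function.Injective (T s)) ∧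
      (∀ s, Function.Injective (fun j => A (T s j) j)) ∧
      ∀ j, Function.Injective (fun s => T s j) := by
  classical
  obtain ⟨M, h1, h2⟩ := Pool.Agent.APL86.exists_rows A
  refine of_rows hn A hA M h1 ?_
  have h3 : M.card + Mᶜ.card = m := by
    rw [card_add_card_compl, Fintype.card_fin]
  omega

/-- The exact number for `k ≤ n + 1`. -/
theorem exact {m n k : ℕ} (hn : 1 ≤ n) (hk : k ≤ n + 1)
    (hm : 131520 * n ^ 2 * (Nat.log 2 n + 1) ^ 2 < m) (A : Fin m → Fin n → Fin k)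
    (hA : ∀ i, Function.Injective (A i)) :
    ∃ T : Fin (m - (n - 1)) → Fin n → Fin m,
      (∀ s, Function.Injective (T s)) ∧
      (∀ s, Function.Injective (fun j => A (T s j) j)) ∧
      ∀ j, Function.Injective (fun s => T s j) := by
  have h1 : n - 1 + (min n (k - n) - 1) = n - 1 := by
    omega
  rw [← h1]
  refine of_card hn (lt_of_le_of_lt ?_ hm) A hA
  set l := Nat.log 2 n with hl
  have h2 : n * D0 n ≤ 131072 * n ^ 2 * (l + 1) ^ 2 := by
    have h3 : D0 n ≤ 131072 * n * (l + 1) ^ 2 := min_le_right _ _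
    calc n * D0 n ≤ n * (131072 * n * (l + 1) ^ 2) := Nat.mul_le_mul_left _ h3
      _ = 131072 * n ^ 2 * (l + 1) ^ 2 := by ring
  have h4 : 32 * (n * k) * (l + 7) ≤ 448 * n ^ 2 * (l + 1) ^ 2 := by
    have h5 : n * k ≤ 2 * n ^ 2 := by nlinarith
    have h6 : l + 7 ≤ 7 * (l + 1) ^ 2 := by nlinarith
    calc 32 * (n * k) * (l + 7) ≤ 32 * (2 * n ^ 2) * (7 * (l + 1) ^ 2) :=
          Nat.mul_le_mul (Nat.mul_le_mul_left _ h5) h6
      _ = 448 * n ^ 2 * (l + 1) ^ 2 := by ring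
  calc 32 * (n * k) * (l + 7) + n * D0 n ≤
        448 * n ^ 2 * (l + 1) ^ 2 + 131072 * n ^ 2 * (l + 1) ^ 2 := Nat.add_le_add h4 h2
    _ = 131520 * n ^ 2 * (l + 1) ^ 2 := by ring

end Pool.Agent.V3R
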