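import Pool.Agent.Rl45.State

/-!
# Exchanges with sections of private cells

The steps of `Pool.Agent.Rl45`, for families in which many sections consist of cells that are alone
in their row.
-/

open Finset

set_option autoImplicit false
set_option linter.unusedSectionVars false

namespace Pool.Agent.V3R

open Pool.Agent.Rl45

variable {R V S : Type*} [Fintype R] [DecidableEq R] [Fintype V] [DecidableEq V]
  [Fintype S] [DecidableEq S]

variable {a : R → V → S} {N : ℕ} {T : Fin N → V → R} {H : Finset (R × V)} {D : ℕ}
  {U : Finset (R × V)}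

/-- The exchange step; only the section `i` is changed. -/
theorem exchange (h : St a T H D U) {i : Fin N} (hcl : Clean T H i)
    {C : Finset (R × V)} (hCH : C ⊆ H)
    (hC : CSet (hed (sm a) (nod a (T i))) (slot a (T i) H D) C) {e₀ : R × V} (he₀ : e₀ ∈ C)
    (hf : e₀ ∉ Fr H) :
    ∃ (T' : Fin N → V → R) (H' : Finset (R × V)), St a T' H' D U ∧
      (Fr H).card < (Fr H').card ∧ ∀ j, j ≠ i → T' j = T j := by
  classical
  have hsi := h.si i
  set K := freed (T i) C with hK
  have hKH : ∀ e ∈ K, e ∉ H := by
    intro e he
    obtain ⟨e', -, -, h2⟩ := mem_freed.1 he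
    have : (T i e.2, e.2) = e := Prod.ext h2 rfl
    exact this ▸ h.dj i e.2
  have hKrow : ∀ e ∈ K, ∀ e' ∈ H, e'.1 ≠ e.1 := by
    intro e he e' he' h1
    obtain ⟨-, -, -, h2⟩ := mem_freed.1 he
    exact hcl e.2 e' he' (h1.trans h2.symm)
  have hdisj : Disjoint (H \ C) K := by
    rw [disjoint_left]
    intro e he he'
    exact hKH e he' (mem_sdiff.1 he).1
  have hρin : ∀ e ∈ C, rho (T i) C e.2 = e.1 := fun e he => rho_of_mem hC.tl he
  have hρout : ∀ v, (∀ e ∈ C, e.2 ≠ v) → rho (T i) C v = T i v := fun v hv => rho_of_notMem hv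
  have hcases : ∀ v, (∃ e ∈ C, e.2 = v) ∨ ∀ e ∈ C, e.2 ≠ v := by
    intro v
    by_cases h1 : ∃ e ∈ C, e.2 = v
    · exact Or.inl h1
    · push Not at h1
      exact Or.inr h1
  refine ⟨fun j => if j = i then rho (T i) C else T j, (H \ C) ∪ K, ⟨?_, ?_, ?_, ?_, ?_, ?_, ?_⟩, ?_,
    fun j hj => if_neg hj⟩
  · intro j
    by_cases hj : j = i
    · simp only [if_pos hj]
      intro v v' h1
      rcases hcases v with ⟨e, he, rfl⟩ | hv <;> rcases hcases v' with ⟨e', he', rfl⟩ | hv'
      · rw [hρin e he, hρin e' he'] at h1
        rw [hC.rb e he e' he' h1]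
      · rw [hρin e he, hρout v' hv'] at h1
        exact absurd h1 (hcl v' e (hCH he))
      · rw [hρin e' he', hρout v hv] at h1
        exact absurd h1.symm (hcl v e' (hCH he'))
      · rw [hρout v hv, hρout v' hv'] at h1
        exact h.ri i h1
    · simp only [if_neg hj]
      exact h.ri j
  · intro j v v' h1
    by_cases hj : j = i
    · simp only [if_pos hj] at h1
      have hin : ∀ e ∈ C, ∀ w, (∀ e ∈ C, e.2 ≠ w) → a e.1 e.2 ≠ a (T i w) w := by
        intro e he w hw h2
        have h3 : hed (sm a) (nod a (T i)) e = some w := (nod_eq_some hsi).2 h2.symm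
        obtain ⟨e', he', h4⟩ := hC.cl e he w h3
        exact hw e' he' h4
      rcases hcases v with ⟨e, he, rfl⟩ | hv <;> rcases hcases v' with ⟨e', he', rfl⟩ | hv'
      · rw [hρin e he, hρin e' he'] at h1
        have h2 : hed (sm a) (nod a (T i)) e = hed (sm a) (nod a (T i)) e' := by
          unfold hed sm
          rw [h1]
        rw [hC.hdi e he e' he' h2]
      · rw [hρin e he, hρout v' hv'] at h1
        exact absurd h1 (hin e he v' hv')
      · rw [hρin e' he', hρout v hv] at h1
        exact absurd h1.symm (hin e' he' v hv)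
      · rw [hρout v hv, hρout v' hv'] at h1
        exact hsi v v' h1
    · simp only [if_neg hj] at h1
      exact h.si j v v' h1
  · have hne : ∀ v j, j ≠ i → rho (T i) C v ≠ T j v := by
      intro v j hj h1
      rcases hcases v with ⟨e, he, rfl⟩ | hv
      · rw [hρin e he] at h1
        have : (T j e.2, e.2) = e := Prod.ext h1.symm rfl
        exact h.dj j e.2 (this.symm ▸ hCH he)
      · rw [hρout v hv] at h1
        exact hj (h.di v i j h1).symm
    intro v j j' h1
    by_cases hj : j = i <;> by_cases hj' : j' = i
    · rw [hj, hj']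
    · simp only [if_pos hj, if_neg hj'] at h1
      exact absurd h1 (hne v j' hj')
    · simp only [if_neg hj, if_pos hj'] at h1
      exact absurd h1.symm (hne v j hj)
    · simp only [if_neg hj, if_neg hj'] at h1
      exact h.di v j j' h1
  · intro e
    rw [h.cov e]
    constructor
    · rintro (h1 | ⟨j, h1⟩)
      · by_cases h2 : e ∈ C
        · right
          refine ⟨i, ?_⟩
          simp only [if_true]
          exact hρin e h2
        · left
          exact mem_union_left _ (mem_sdiff.2 ⟨h1, h2⟩)
      · by_cases hj : j = i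
        · rcases hcases e.2 with ⟨e', he', h2⟩ | hv
          · left
            exact mem_union_right _ (mem_freed.2 ⟨e', he', h2, hj ▸ h1⟩)
          · right
            refine ⟨i, ?_⟩
            simp only [if_true]
            rw [hρout _ hv]
            exact hj ▸ h1
        · right
          refine ⟨j, ?_⟩
          simp only [if_neg hj]
          exact h1
    · rintro (h1 | ⟨j, h1⟩)
      · rcases mem_union.1 h1 with h1 | h1
        · exact Or.inl (mem_sdiff.1 h1).1
        · obtain ⟨-, -, -, h2⟩ := mem_freed.1 h1
          exact Or.inr ⟨i, h2⟩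
      · by_cases hj : j = i
        · simp only [if_pos hj] at h1
          rcases hcases e.2 with ⟨e', he', h2⟩ | hv
          · left
            rw [← h2, hρin e' he'] at h1
            have : e' = e := Prod.ext h1 h2
            exact this ▸ hCH he'
          · right
            rw [hρout _ hv] at h1
            exact ⟨i, h1⟩
        · simp only [if_neg hj] at h1
          exact Or.inr ⟨j, h1⟩
  · intro j v h1
    rcases mem_union.1 h1 with h1 | h1
    · by_cases hj : j = i
      · simp only [if_pos hj] at h1
        rcases hcases v with ⟨e, he, rfl⟩ | hv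
        · rw [hρin e he] at h1
          exact (mem_sdiff.1 h1).2 he
        · rw [hρout v hv] at h1
          exact h.dj i v (mem_sdiff.1 h1).1
      · simp only [if_neg hj] at h1
        exact h.dj j v (mem_sdiff.1 h1).1
    · obtain ⟨e', he', h2, h3⟩ := mem_freed.1 h1
      simp only at h2 h3
      by_cases hj : j = i
      · simp only [if_pos hj] at h3
        rw [← h2, hρin e' he'] at h3
        exact hcl e'.2 e' (hCH he') h3.symm
      · simp only [if_neg hj] at h3
        exact hj (h.di v i j h3).symm
  · intro v
    rw [filter_union, card_union_of_disjoint (disjoint_filter_filter hdisj)]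
    rcases hcases v with ⟨e, he, rfl⟩ | hv
    · have h1 : ((H \ C).filter fun e' => e'.2 = e.2) = (H.filter fun e' => e'.2 = e.2).erase e := by
        ext e'
        simp only [mem_filter, mem_sdiff, mem_erase]
        constructor
        · rintro ⟨⟨h2, h3⟩, h4⟩
          exact ⟨fun h5 => h3 (h5 ▸ he), h2, h4⟩
        · rintro ⟨h2, h3, h4⟩
          exact ⟨⟨h3, fun h5 => h2 (hC.tl e' h5 e he h4)⟩, h4⟩
      have h2 : (K.filter fun e' => e'.2 = e.2) = {(T i e.2, e.2)} := by
        ext e'
        rw [mem_filter, mem_singleton, hK, mem_freed]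
        constructor
        · rintro ⟨⟨e'', he'', h3, h4⟩, h5⟩
          rw [h5] at h4
          exact Prod.ext h4.symm h5
        · rintro rfl
          exact ⟨⟨e, he, rfl, rfl⟩, rfl⟩
      have h3 : e ∈ H.filter fun e' => e'.2 = e.2 := mem_filter.2 ⟨hCH he, rfl⟩
      have h4 : 0 < (H.filter fun e' => e'.2 = e.2).card := card_pos.2 ⟨e, h3⟩
      rw [h1, h2, card_erase_of_mem h3, card_singleton, ← h.col e.2]
      omega
    · have h1 : ((H \ C).filter fun e' => e'.2 = v) = H.filter fun e' => e'.2 = v := by
        ext e'
        simp only [mem_filter, mem_sdiff]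
        constructor
        · rintro ⟨⟨h2, h3⟩, h4⟩
          exact ⟨h2, h4⟩
        · rintro ⟨h2, h4⟩
          exact ⟨⟨h2, fun h5 => hv e' h5 h4⟩, h4⟩
      have h2 : (K.filter fun e' => e'.2 = v) = ∅ := by
        rw [eq_empty_iff_forall_notMem]
        intro e' he'
        rw [mem_filter, hK, mem_freed] at he'
        obtain ⟨⟨e'', he'', h3, h4⟩, h5⟩ := he'
        exact hv e'' he'' (h3.trans h5)
      rw [h1, h2, card_empty, add_zero, h.col v]
  · intro y
    rw [filter_union, card_union_of_disjoint (disjoint_filter_filter hdisj)]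
    have hK1 : (K.filter fun e => sm a e = y).card ≤ 1 := by
      rw [card_le_one]
      intro e he e' he'
      rw [mem_filter, hK, mem_freed] at he he'
      obtain ⟨⟨-, -, -, h1⟩, h2⟩ := he
      obtain ⟨⟨-, -, -, h3⟩, h4⟩ := he'
      have h5 : a (T i e.2) e.2 = a (T i e'.2) e'.2 := by
        rw [h1, h3]
        exact h2.trans h4.symm
      have h6 := hsi _ _ h5
      exact Prod.ext (by rw [← h1, ← h3, h6]) h6
    have hsub : ((H \ C).filter fun e => sm a e = y) ⊆ H.filter fun e => sm a e = y :=
      filter_subset_filter _ sdiff_subset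
    have hle := (card_le_card hsub).trans (h.sym y)
    rcases Nat.eq_zero_or_pos ((K.filter fun e => sm a e = y).card) with h0 | h0
    · omega
    · obtain ⟨e, he⟩ := card_pos.1 h0
      rw [mem_filter, hK, mem_freed] at he
      obtain ⟨⟨e', he', h1, h2⟩, h3⟩ := he
      -- `y` is the symbol of the column `e.2`, which lies in `C`
      have hy : a (T i e.2) e.2 = y := by
        rw [h2]
        exact h3
      by_cases h4 : ∃ e'' ∈ C, hed (sm a) (nod a (T i)) e'' = some e'.2
      · obtain ⟨e'', he'', h5⟩ := h4
        have h6 : sm a e'' = y := by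
          have := (nod_eq_some hsi).1 h5
          rw [← this, h1]
          exact hy
        have h7 : ((H \ C).filter fun e => sm a e = y).card <
            (H.filter fun e => sm a e = y).card := by
          refine card_lt_card ⟨hsub, fun h8 => ?_⟩
          have h9 := h8 (mem_filter.2 ⟨hCH he'', h6⟩)
          exact (mem_sdiff.1 (mem_filter.1 h9).1).2 he''
        have := h.sym y
        omega
      · push Not at h4
        have h5 := hC.st e' he' h4
        unfold slot at h5
        rw [h1, hy] at h5
        have h6 := card_le_card hsub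
        omega
  · -- the number of free cells grows
    have h1 : (Fr H \ C) ∪ K ⊆ Fr ((H \ C) ∪ K) := by
      intro e he
      rw [mem_Fr]
      rcases mem_union.1 he with he | he
      · obtain ⟨h2, h3⟩ := mem_sdiff.1 he
        obtain ⟨h4, h5⟩ := mem_Fr.1 h2
        refine ⟨mem_union_left _ (mem_sdiff.2 ⟨h4, h3⟩), ?_⟩
        intro e' he' h6
        rcases mem_union.1 he' with he' | he'
        · exact h5 e' (mem_sdiff.1 he').1 h6
        · exact absurd h6.symm (hKrow e' he' e h4)
      · refine ⟨mem_union_right _ he, ?_⟩
        intro e' he' h6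
        rcases mem_union.1 he' with he' | he'
        · exact absurd h6 (hKrow e he e' (mem_sdiff.1 he').1)
        · obtain ⟨-, -, -, h7⟩ := mem_freed.1 he
          obtain ⟨-, -, -, h8⟩ := mem_freed.1 he'
          have h9 := h.ri i (h8.trans (h6.trans h7.symm))
          exact Prod.ext h6 h9
    have h2 : K.card = C.card := by
      rw [hK]
      unfold freed
      refine card_image_of_injOn ?_
      intro e he e' he' h3
      exact hC.tl e he e' he' (Prod.mk.inj h3).2
    have h3 : Disjoint (Fr H \ C) K := by
      rw [disjoint_left]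
      intro e he he'
      exact hKH e he' (Fr_subset (mem_sdiff.1 he).1)
    have h4 := card_le_card h1
    rw [card_union_of_disjoint h3, h2] at h4
    have h5 : (Fr H).card ≤ (Fr H \ C).card + (C.erase e₀).card := by
      refine (card_le_card ?_).trans (card_union_le _ _)
      intro e he
      rw [mem_union, mem_sdiff, mem_erase]
      by_cases h6 : e ∈ C
      · exact Or.inr ⟨fun h7 => hf (h7 ▸ he), h6⟩
      · exact Or.inl ⟨he, h6⟩
    have h6 : 0 < C.card := card_pos.2 ⟨e₀, he₀⟩
    rw [card_erase_of_mem he₀] at h5
    omega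


/-- Adding a transversal of cells of `H` that contains all tight symbols. -/
theorem add (h : St a T H D U) (hD : 0 < D) {ρ : V → R} (h1 : ∀ v, (ρ v, v) ∈ Fr H)
    (h2 : Function.Injective fun v => sm a (ρ v, v))
    (h3 : ∀ y, (H.filter fun e => sm a e = y).card = D → ∃ v, sm a (ρ v, v) = y) :
    St a (Fin.cons ρ T : Fin (N + 1) → V → R)
      (H \ Finset.univ.image fun v => (ρ v, v)) (D - 1) U := by
  classical
  set M : Finset (R × V) := Finset.univ.image fun v => (ρ v, v) with hM
  have hmem : ∀ e, e ∈ M ↔ ρ e.2 = e.1 := by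
    intro e
    rw [hM, mem_image]
    constructor
    · rintro ⟨v, -, rfl⟩
      rfl
    · intro h4
      exact ⟨e.2, mem_univ _, Prod.ext h4 rfl⟩
  have hMH : M ⊆ H := by
    intro e he
    rw [hmem] at he
    have : (ρ e.2, e.2) = e := Prod.ext he rfl
    exact this ▸ Fr_subset (h1 e.2)
  have hρi : Function.Injective ρ := by
    intro v v' h4
    have := (mem_Fr.1 (h1 v')).2 _ (Fr_subset (h1 v)) h4
    exact congrArg Prod.snd this
  refine ⟨?_, ?_, ?_, ?_, ?_, ?_, ?_⟩
  · intro i
    refine Fin.cases ?_ (fun j => ?_) i
    · rw [Fin.cons_zero]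
      exact hρi
    · rw [Fin.cons_succ]
      exact h.ri j
  · intro i
    refine Fin.cases ?_ (fun j => ?_) i
    · rw [Fin.cons_zero]
      intro v v' h4
      exact h2 h4
    · rw [Fin.cons_succ]
      exact h.si j
  · have hne : ∀ v j, ρ v ≠ T j v := by
      intro v j h4
      exact h.dj j v (h4 ▸ Fr_subset (h1 v))
    intro v i
    refine Fin.cases ?_ (fun j => ?_) i
    · intro i'
      refine Fin.cases ?_ (fun j' => ?_) i'
      · intro _
        rfl
      · rw [Fin.cons_zero, Fin.cons_succ]
        intro h4
        exact absurd h4 (hne v j')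
    · intro i'
      refine Fin.cases ?_ (fun j' => ?_) i'
      · rw [Fin.cons_zero, Fin.cons_succ]
        intro h4
        exact absurd h4.symm (hne v j)
      · rw [Fin.cons_succ, Fin.cons_succ]
        intro h4
        rw [h.di v j j' h4]
  · intro e
    rw [h.cov e, Fin.exists_fin_succ]
    simp only [Fin.cons_zero, Fin.cons_succ, mem_sdiff, hmem]
    constructor
    · rintro (h4 | h4)
      · by_cases h5 : ρ e.2 = e.1
        · exact Or.inr (Or.inl h5)
        · exact Or.inl ⟨h4, h5⟩
      · exact Or.inr (Or.inr h4)
    · rintro (h4 | h4 | h4)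
      · exact Or.inl h4.1
      · exact Or.inl (hMH ((hmem e).2 h4))
      · exact Or.inr h4
  · intro i v
    rw [mem_sdiff, hmem]
    refine Fin.cases ?_ (fun j => ?_) i
    · rw [Fin.cons_zero]
      exact fun h4 => h4.2 rfl
    · rw [Fin.cons_succ]
      exact fun h4 => h.dj j v h4.1
  · intro v
    have h4 : ((H \ M).filter fun e => e.2 = v) = (H.filter fun e => e.2 = v).erase (ρ v, v) := by
      ext e
      simp only [mem_filter, mem_sdiff, mem_erase, hmem]
      constructor
      · rintro ⟨⟨h5, h6⟩, h7⟩
        refine ⟨?_, h5, h7⟩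
        rintro rfl
        exact h6 rfl
      · rintro ⟨h5, h6, h7⟩
        refine ⟨⟨h6, ?_⟩, h7⟩
        intro h8
        apply h5
        rw [← h7, h8]
    have h5 : (ρ v, v) ∈ H.filter fun e => e.2 = v := mem_filter.2 ⟨Fr_subset (h1 v), rfl⟩
    rw [h4, card_erase_of_mem h5, h.col v]
  · intro y
    have hsub : ((H \ M).filter fun e => sm a e = y) ⊆ H.filter fun e => sm a e = y :=
      filter_subset_filter _ sdiff_subset
    have hle := card_le_card hsub
    rcases Nat.lt_or_ge ((H.filter fun e => sm a e = y).card) D with h4 | h4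
    · omega
    · obtain ⟨v, hv⟩ := h3 y (le_antisymm (h.sym y) h4)
      have h7 : ((H \ M).filter fun e => sm a e = y).card <
          (H.filter fun e => sm a e = y).card := by
        refine card_lt_card ⟨hsub, fun h8 => ?_⟩
        have h9 := h8 (mem_filter.2 ⟨Fr_subset (h1 v), hv⟩)
        exact (mem_sdiff.1 (mem_filter.1 h9).1).2 ((hmem _).2 rfl)
      have := h.sym y
      omega


/-- the number of sections whose rows are not in `P` -/
noncomputable def pcount (P : R → Prop) {N : ℕ} (T : Fin N → V → R) : ℕ := by
  classical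
  exact (Finset.univ.filter fun i : Fin N => ∀ v, ¬ P (T i v)).card

/-- the number of cells of `H` that are not free -/
def nonfree (H : Finset (R × V)) : ℕ := (H \ Fr H).card

/-- One more transversal, if there are more private sections than cells that are not free. -/
theorem step (h : St a T H D U) (ha : ∀ r, Function.Injective (a r))
    (hV : 0 < Fintype.card V)
    (hD : Fintype.card V + (min (Fintype.card V) (Fintype.card S - Fintype.card V) - 1) ≤ D)
    (P : R → Prop) (hP : ∀ e ∈ U, ∀ e' ∈ U, e.1 = e'.1 → ¬ P e.1 → e = e')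
    (hN : nonfree H < pcount P T) :
    ∃ (T' : Fin (N + 1) → V → R) (H' : Finset (R × V)), St a T' H' (D - 1) U ∧
      nonfree H' < pcount P T' := by
  classical
  -- induction on the number of cells that are not free
  suffices key : ∀ (b : ℕ) (T : Fin N → V → R) (H : Finset (R × V)), St a T H D U →
      nonfree H = b → nonfree H < pcount P T →
      ∃ (T' : Fin (N + 1) → V → R) (H' : Finset (R × V)), St a T' H' (D - 1) U ∧
        nonfree H' < pcount P T' from
    key _ T H h rfl hN
  intro b
  induction b using Nat.strong_induction_on with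
  | _ b ih =>
    intro T H h hb hN
    have hpos : 0 < pcount P T := by omega
    obtain ⟨i, hi⟩ := card_pos.1 hpos
    rw [mem_filter] at hi
    have hcl : Clean T H i := by
      intro v e he h1
      have h2 : (T i v, v) ∈ U := (h.cov _).2 (Or.inr ⟨i, rfl⟩)
      have h3 := hP (T i v, v) h2 e ((h.cov e).2 (Or.inl he)) h1.symm (hi.2 v)
      exact h.dj i v (h3 ▸ he)
    by_cases hNE : NoExchange H (hed (sm a) (nod a (T i))) (slot a (T i) H D)
    · obtain ⟨ρ, h1, h2, h3⟩ := exists_free_transversal (h.cfg ha i) hV hD hNE
      refine ⟨_, _, add h (by omega) h1 h2 h3, ?_⟩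
      have h4 : nonfree (H \ Finset.univ.image fun v => (ρ v, v)) ≤ nonfree H := by
        unfold nonfree
        refine card_le_card ?_
        intro e he
        rw [mem_sdiff, mem_sdiff] at he
        rw [mem_sdiff]
        refine ⟨he.1.1, fun h5 => he.2 ?_⟩
        rw [mem_Fr] at h5 ⊢
        exact ⟨mem_sdiff.2 he.1, fun e' he' => h5.2 e' (mem_sdiff.1 he').1⟩
      have h5 : pcount P T ≤ pcount P (Fin.cons ρ T : Fin (N + 1) → V → R) := by
        unfold pcount
        refine card_le_card_of_injOn Fin.succ ?_ ?_
        · intro j hj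
          rw [mem_coe, mem_filter] at hj ⊢
          refine ⟨mem_univ _, fun v => ?_⟩
          rw [Fin.cons_succ]
          exact hj.2 v
        · intro j _ j' _ h6
          exact Fin.succ_injective _ h6
      omega
    · unfold NoExchange at hNE
      push Not at hNE
      obtain ⟨C, hCH, hC, e₀, he₀, hf⟩ := hNE
      obtain ⟨T', H', h1, h2, h3⟩ := exchange h hcl hCH hC he₀ hf
      have h4 : nonfree H' < nonfree H := by
        have e1 : nonfree H + (Fr H).card = Fintype.card V * D := by
          unfold nonfree
          rw [← h.card_H, card_sdiff_add_card_eq_card Fr_subset]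
        have e2 : nonfree H' + (Fr H').card = Fintype.card V * D := by
          unfold nonfree
          rw [← h1.card_H, card_sdiff_add_card_eq_card Fr_subset]
        omega
      have h5 : pcount P T ≤ pcount P T' + 1 := by
        unfold pcount
        have h6 : ((Finset.univ.filter fun i' : Fin N => ∀ v, ¬ P (T i' v)).erase i).card ≤
            (Finset.univ.filter fun i' : Fin N => ∀ v, ¬ P (T' i' v)).card := by
          refine card_le_card ?_
          intro j hj
          rw [mem_erase, mem_filter] at hj
          rw [mem_filter]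
          refine ⟨mem_univ _, fun v => ?_⟩
          rw [h3 j hj.1]
          exact hj.2.2 v
        have h7 : i ∈ Finset.univ.filter fun i' : Fin N => ∀ v, ¬ P (T i' v) :=
          mem_filter.2 ⟨mem_univ i, hi.2⟩
        have h8 := Finset.card_erase_add_one h7
        omega
      exact ih _ (by omega) T' H' h1 rfl (by omega)

/-- The iteration. -/
theorem iterate (ha : ∀ r, Function.Injective (a r)) (hV : 0 < Fintype.card V)
    (hD : Fintype.card V + (min (Fintype.card V) (Fintype.card S - Fintype.card V) - 1) ≤ D)
    (P : R → Prop) (hP : ∀ e ∈ U, ∀ e' ∈ U, e.1 = e'.1 → ¬ P e.1 → e = e')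
    (j : ℕ) : ∀ (N : ℕ) (T : Fin N → V → R) (F : Finset (R × V)),
    nonfree F < pcount P T → St a T F (D - 1 + j) U →
    ∃ (N' : ℕ) (T' : Fin N' → V → R) (F' : Finset (R × V)), N' = N + j ∧
      St a T' F' (D - 1) U := by
  induction j with
  | zero =>
    intro N T F _ h
    exact ⟨N, T, F, rfl, h⟩
  | succ j ih =>
    intro N T F hN h
    obtain ⟨T₁, F₁, h1, h2⟩ := step h ha hV (by omega) P hP hN
    obtain ⟨N', T', F', h3, h4⟩ := ih (N + 1) T₁ F₁ h2 (by
      have : D - 1 + (j + 1) - 1 = D - 1 + j := by omega
      exact this ▸ h1)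
    exact ⟨N', T', F', by omega, h4⟩

end Pool.Agent.V3R
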