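import Pool.Agent.V3R.Init
import Pool.Agent.APL86.AP

/-!
# From private cells back to rows
-/

set_option autoImplicit false

namespace Pool.Agent.V3R

open Finset Pool.Agent.Rl45

/-- The private cells can be replaced by cells of real rows with the same symbols. -/
theorem finish {m n k N d : ℕ} (A : Fin m → Fin n → Fin k) (M : Finset (Fin m))
    (hM : ∀ i ∈ M, ∑ j, (1 : ℚ) / ((M.filter fun i' => A i' j = A i j).card : ℚ) ≤ 1 / 16)
    {T : Fin N → Fin n → Rw m n} {H : Finset (Rw m n × Fin n)}
    (hst : St (ext A) T H d (cel M)) :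
    ∃ T' : Fin N → Fin n → Fin m,
      (∀ s, Function.Injective (T' s)) ∧
      (∀ s, Function.Injective (fun j => A (T' s j) j)) ∧
      ∀ j, Function.Injective (fun s => T' s j) := by
  classical
  let sig : Fin n → M → Option (Fin N) := fun v r =>
    if h : ∃ s, T s v = Sum.inr ((r : Fin m), v) then some h.choose else none
  have hs1 : ∀ v (r : M) s, T s v = Sum.inr ((r : Fin m), v) → sig v r = some s := by
    intro v r s h
    have h1 : ∃ s, T s v = Sum.inr ((r : Fin m), v) := ⟨s, h⟩
    have h2 : sig v r = some h1.choose := dif_pos h1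
    rw [h2, hst.di v h1.choose s (h1.choose_spec.trans h.symm)]
  have hs2 : ∀ v (r : M) s, sig v r = some s → T s v = Sum.inr ((r : Fin m), v) := by
    intro v r s h
    by_cases h1 : ∃ s, T s v = Sum.inr ((r : Fin m), v)
    · have h2 : sig v r = some h1.choose := dif_pos h1
      rw [h2] at h
      rw [← Option.some.inj h]
      exact h1.choose_spec
    · have h2 : sig v r = none := dif_neg h1
      rw [h2] at h
      exact absurd h (by simp)
  have hlam : ∀ i : M, ∑ j, 1 / (Pool.Agent.APL86.lam (fun (r : M) (j : Fin n) => A r j) j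
      (A i j) : ℚ) ≤ 1 / 16 := by
    intro i
    refine le_trans (le_of_eq ?_) (hM i i.2)
    refine sum_congr rfl fun j _ => ?_
    have h1 : Pool.Agent.APL86.lam (fun (r : M) (j : Fin n) => A r j) j (A i j) =
        (M.filter fun i' => A i' j = A i j).card := by
      unfold Pool.Agent.APL86.lam Pool.Agent.APL86.cls
      rw [← card_image_of_injective _ (Subtype.val_injective (p := fun i => i ∈ M))]
      congr 1
      ext x
      rw [mem_image, mem_filter]
      constructor
      · rintro ⟨r, hr, rfl⟩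
        exact ⟨r.2, (mem_filter.1 hr).2⟩
      · rintro ⟨hx, h⟩
        exact ⟨⟨x, hx⟩, mem_filter.2 ⟨mem_univ _, h⟩, rfl⟩
    rw [h1]
  obtain ⟨f, hf1, hf2⟩ := Pool.Agent.APL86.AP (fun (r : M) (j : Fin n) => A r j) sig
    (by
      intro j r r' s h h'
      have h1 := (hs2 j r s h).symm.trans (hs2 j r' s h')
      exact Subtype.ext (Prod.mk.inj (Sum.inr_injective h1)).1) hlam
  let T' : Fin N → Fin n → Fin m := fun s v => match T s v with
    | Sum.inl i => i
    | Sum.inr p => if h : p.1 ∈ M then ((f v).symm ⟨p.1, h⟩ : M) else p.1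
  have hT1 : ∀ s v i, T s v = Sum.inl i → T' s v = i := by
    intro s v i h
    simp only [T', h]
  have hT2 : ∀ s v (r : M), T s v = Sum.inr ((r : Fin m), v) → T' s v = ((f v).symm r : M) := by
    intro s v r h
    simp only [T', h, r.2, dif_pos]
  have hc : ∀ s v, (∃ i, i ∉ M ∧ T s v = Sum.inl i ∧ T' s v = i) ∨
      ∃ r : M, T s v = Sum.inr ((r : Fin m), v) ∧ T' s v = ((f v).symm r : M) := by
    intro s v
    have h1 : (T s v, v) ∈ cel M := (hst.cov _).2 (Or.inr ⟨s, rfl⟩)
    rcases h2 : T s v with i | p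
    · left
      rw [h2, mem_cel_inl] at h1
      exact ⟨i, h1, rfl, hT1 s v i h2⟩
    · right
      rw [h2, mem_cel_inr] at h1
      have h3 : T s v = Sum.inr (((⟨p.1, h1.1⟩ : M) : Fin m), v) := by
        rw [h2]
        exact congrArg Sum.inr (Prod.ext rfl h1.2)
      exact ⟨⟨p.1, h1.1⟩, h2 ▸ h3, hT2 s v _ h3⟩
  have hsym : ∀ s v, A (T' s v) v = ext A (T s v) v := by
    intro s v
    rcases hc s v with ⟨i, -, h1, h2⟩ | ⟨r, h1, h2⟩
    · rw [h1, h2]
      rfl
    · rw [h1, h2]
      change A ((f v).symm r : M) v = A r v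
      have h3 := hf1 v ((f v).symm r)
      rw [Equiv.apply_symm_apply] at h3
      exact h3.symm
  refine ⟨T', ?_, ?_, ?_⟩
  · intro s v v' h
    rcases hc s v with ⟨i, h0, h1, h2⟩ | ⟨r, h1, h2⟩ <;>
      rcases hc s v' with ⟨i', h0', h1', h2'⟩ | ⟨r', h1', h2'⟩
    · apply hst.ri s
      rw [h1, h1', ← h2, ← h2', h]
    · exfalso
      apply h0
      rw [← h2, h, h2']
      exact ((f v').symm r').2
    · exfalso
      apply h0'
      rw [← h2', ← h, h2]
      exact ((f v).symm r).2
    · by_contra hvv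
      have h3 : (f v).symm r = (f v').symm r' := by
        apply Subtype.ext
        rw [← h2, ← h2', h]
      refine hf2 ((f v).symm r) v v' s hvv ?_ ?_
      · rw [Equiv.apply_symm_apply]
        exact hs1 v r s h1
      · rw [h3, Equiv.apply_symm_apply]
        exact hs1 v' r' s h1'
  · intro s v v' h
    have h1 : A (T' s v) v = A (T' s v') v' := h
    rw [hsym, hsym] at h1
    exact hst.si s v v' h1
  · intro v s s' h
    have h' : T' s v = T' s' v := h
    apply hst.di v
    rcases hc s v with ⟨i, h0, h1, h2⟩ | ⟨r, h1, h2⟩ <;>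
      rcases hc s' v with ⟨i', h0', h1', h2'⟩ | ⟨r', h1', h2'⟩
    · rw [h1, h1', ← h2, ← h2', h']
    · exfalso
      apply h0
      rw [← h2, h', h2']
      exact ((f v).symm r').2
    · exfalso
      apply h0'
      rw [← h2', ← h', h2]
      exact ((f v).symm r).2
    · have h3 : (f v).symm r = (f v).symm r' := by
        apply Subtype.ext
        rw [← h2, ← h2', h']
      rw [h1, h1', (f v).symm.injective h3]

/-- Disjoint transversals, given the rows `M`. -/
theorem of_rows {m n k : ℕ} (hn : 1 ≤ n) (A : Fin m → Fin n → Fin k)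
    (hA : ∀ i, Function.Injective (A i)) (M : Finset (Fin m))
    (hM : ∀ i ∈ M, ∑ j, (1 : ℚ) / ((M.filter fun i' => A i' j = A i j).card : ℚ) ≤ 1 / 16)
    (hM' : n * D0 n < M.card) :
    ∃ T : Fin (m - (n - 1 + (min n (k - n) - 1))) → Fin n → Fin m,
      (∀ s, Function.Injective (T s)) ∧
      (∀ s, Function.Injective (fun j => A (T s j) j)) ∧
      ∀ j, Function.Injective (fun s => T s j) := by
  obtain ⟨N, d, T, H, hNd, hd, hst, hlt⟩ := exists_init hn A hA M hM'
  obtain ⟨N', d', T', H', hN', hst'⟩ : ∃ (N' d' : ℕ) (T' : Fin N' → Fin n → Rw m n)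
      (H' : Finset (Rw m n × Fin n)), m - (n - 1 + (min n (k - n) - 1)) ≤ N' ∧
      St (ext A) T' H' d' (cel M) := by
    rcases Nat.lt_or_ge (n - 1 + (min n (k - n) - 1)) d with h | h
    · obtain ⟨j, hj⟩ : ∃ j, d = n + (min n (k - n) - 1) - 1 + j :=
        ⟨d - (n + (min n (k - n) - 1) - 1), by omega⟩
      subst hj
      obtain ⟨N', T', H', h1, h2⟩ := iterate (ext_injective hA) (by rw [Fintype.card_fin]; omega)
        (D := n + (min n (k - n) - 1)) (by rw [Fintype.card_fin, Fintype.card_fin])
        Old private_cel j N T H hlt hst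
      exact ⟨N', _, T', H', by omega, h2⟩
    · exact ⟨N, d, T, H, by omega, hst⟩
  obtain ⟨T'', h1, h2, h3⟩ := finish A M hM hst'
  refine ⟨fun s => T'' (Fin.castLE hN' s), fun s => h1 _, fun s => h2 _, fun j s s' h => ?_⟩
  exact Fin.castLE_injective hN' (h3 j h)

end Pool.Agent.V3R
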